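import Pool.Agent.H61.NVK.TargetsE3

/-!
# NVK, part E, row ZCX: the central value with complex discriminants
-/

set_option autoImplicit false

open MeasureTheory Set Filter NumberField NumberField.InfinitePlace
open Pool.Agent.H65.CM4 Pool.Agent.H61.CM4 Pool.Agent.H61.NVK
open scoped Real nonZeroDivisors

namespace Pool.Agent.H96.NVE_ZCX

/-- the bound of the kernel -/
theorem kbd (hKCB : T_KCB) (n : ℕ) : ∃ C : ℝ, 0 ≤ C ∧ ∀ r : ℂ, 0 < r.re → |r.im| ≤ r.re / 10 →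
    ‖Kc n (1 / 2) r‖ ≤ C * (‖r‖ ^ 2)⁻¹ := by
  obtain ⟨C, j, hC, h⟩ := hKCB n 2 (1 / 8) (by norm_num) (by norm_num)
  refine ⟨C, hC, fun r hr hi => ?_⟩
  have him : (1 / 2 : ℂ).im = 0 := by norm_num
  have hre : (1 / 2 : ℂ).re = 1 / 2 := by norm_num
  have h1 := h (1 / 2) r (by rw [hre]; norm_num) hr (by rw [him]; simpa using hi)
  rw [him] at h1
  have hpos : 0 < ‖r‖ := by
    rw [norm_pos_iff]
    intro h0
    rw [h0] at hr
    simp at hr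
  refine h1.trans ?_
  have e1 : C * (1 + |(0 : ℝ)|) ^ j * Real.exp (-(π * n * |(0 : ℝ)| / 2)) = C := by simp
  rw [e1]
  refine mul_le_mul_of_nonneg_left ?_ hC
  have e2 : (1 + ‖r‖) ^ (-((2 : ℕ) : ℝ)) = ((1 + ‖r‖) ^ 2)⁻¹ := by
    rw [Real.rpow_neg (by positivity), Real.rpow_natCast]
  rw [e2]
  have e3 : (‖r‖ ^ 2)⁻¹ = ‖r‖ ^ (-(1 / 2 + 2 * (1 / 8)) : ℝ) * ‖r‖ ^ (-(5 / 4) : ℝ) := by
    rw [← Real.rpow_add hpos, ← Real.rpow_natCast, ← Real.rpow_neg hpos.le]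
    norm_num
  rw [e3]
  refine mul_le_mul_of_nonneg_left ?_ (by positivity)
  rw [Real.rpow_neg hpos.le]
  refine inv_anti₀ (by positivity) ?_
  calc ‖r‖ ^ (5 / 4 : ℝ) ≤ (1 + ‖r‖) ^ (5 / 4 : ℝ) :=
        Real.rpow_le_rpow hpos.le (by linarith) (by norm_num)
    _ ≤ (1 + ‖r‖) ^ (2 : ℝ) := Real.rpow_le_rpow_of_exponent_le (by linarith) (by norm_num)
    _ = (1 + ‖r‖) ^ 2 := Real.rpow_two _

section

variable {k : Type} [Field k] [NumberField k] [IsTotallyReal k]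

omit [IsTotallyReal k] in
theorem Wpos {W : Pl k → ℂ} (hW : W ∈ Sc k) (v : Pl k) : 0 < ‖W v‖ := by
  rw [norm_pos_iff]
  intro h0
  have := (hW v).1
  rw [h0] at this
  simp at this

/-- the bound of one term -/
theorem tbd (hEZA : T_EZA) (hLIX : T_LIX) (hQCX : T_QCX) {C : ℝ} (hC : 0 ≤ C)
    (h : ∀ r : ℂ, 0 < r.re → |r.im| ≤ r.re / 10 → ‖Kc (dg k) (1 / 2) r‖ ≤ C * (‖r‖ ^ 2)⁻¹)
    (b : Pl k → ℝ) (W : Pl k → ℂ) (hW : W ∈ Sc k) (N : ℕ) (hN : 0 < N) (u : V2 k) (hu : u ≠ 0) :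
    0 < qp (fun v => b v / 2) (fun v => Real.sqrt ‖W v‖ / 2) u ∧
    0 < (qn (hx b) (hy W) u / (N : ℂ)).re ∧
    ‖Kc (dg k) (1 / 2) (qn (hx b) (hy W) u / (N : ℂ))‖ ≤
      C * (N : ℝ) ^ 2 * 4 ^ dg k *
        (qp (fun v => b v / 2) (fun v => Real.sqrt ‖W v‖ / 2) u ^ 2)⁻¹ := by
  have hy : ∀ v : Pl k, 0 < Real.sqrt ‖W v‖ / 2 := fun v => by
    have := Real.sqrt_pos.2 (Wpos hW v)
    positivity
  have hq : 0 < qp (fun v => b v / 2) (fun v => Real.sqrt ‖W v‖ / 2) u :=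
    (hEZA k (Lb ((1 : (Ideal (𝓞 k))⁰) : Ideal (𝓞 k)) ((1 : (Ideal (𝓞 k))⁰) : Ideal (𝓞 k))) _ _
      (hLIX k 1 1).2.1 hy).1 u hu
  obtain ⟨q1, q2, q3⟩ := hQCX k b W u hW hu
  have hNr : (0 : ℝ) < N := by exact_mod_cast hN
  have er : (qn (hx b) (Pool.Agent.H61.NVK.hy W) u / (N : ℂ)).re =
      (qn (hx b) (Pool.Agent.H61.NVK.hy W) u).re / N := by
    rw [← Complex.ofReal_natCast, Complex.div_ofReal_re]
  have ei : (qn (hx b) (Pool.Agent.H61.NVK.hy W) u / (N : ℂ)).im =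
      (qn (hx b) (Pool.Agent.H61.NVK.hy W) u).im / N := by
    rw [← Complex.ofReal_natCast, Complex.div_ofReal_im]
  have hr : 0 < (qn (hx b) (Pool.Agent.H61.NVK.hy W) u / (N : ℂ)).re := by
    rw [er]; positivity
  refine ⟨hq, hr, (h _ hr ?_).trans ?_⟩
  · rw [er, ei, abs_div, abs_of_pos hNr, div_right_comm]
    exact div_le_div_of_nonneg_right q2 hNr.le
  · rw [norm_div, Complex.norm_natCast, mul_assoc, mul_assoc]
    refine mul_le_mul_of_nonneg_left ?_ hC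
    have e4 : (4 : ℝ) ^ dg k = (2 ^ dg k) ^ 2 := by
      rw [← pow_mul, mul_comm, pow_mul]; norm_num
    have hqn : 0 < ‖qn (hx b) (Pool.Agent.H61.NVK.hy W) u‖ := by
      by_contra h0
      push Not at h0
      have h1 : (2 : ℝ) ^ dg k * ‖qn (hx b) (Pool.Agent.H61.NVK.hy W) u‖ ≤ 0 :=
        mul_nonpos_of_nonneg_of_nonpos (by positivity) h0
      linarith
    have e5 : ((‖qn (hx b) (Pool.Agent.H61.NVK.hy W) u‖ / (N : ℝ)) ^ 2)⁻¹ =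
        (N : ℝ) ^ 2 * (‖qn (hx b) (Pool.Agent.H61.NVK.hy W) u‖ ^ 2)⁻¹ := by
      field_simp
    rw [e5, e4]
    refine mul_le_mul_of_nonneg_left ?_ (by positivity)
    rw [inv_le_comm₀ (by positivity) (by positivity), mul_inv, inv_inv, ← inv_pow, ← mul_pow]
    refine pow_le_pow_left₀ (by positivity) ?_ 2
    rw [inv_mul_le_iff₀ (by positivity)]
    exact q3

/-- the real inequality for the metrics -/
theorem qr_ge (x y y1 y2 a b : ℝ) (h1 : 0 < y1) (hy1 : y1 ≤ y) (hy2 : y ≤ y2) :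
    min 1 (y1 ^ 2) / y2 * qr x 1 a b ≤ qr x y a b := by
  have hy : 0 < y := by linarith
  have h2 : 0 < y2 := by linarith
  unfold qr
  have e1 : min 1 (y1 ^ 2) * ((a + b * x) ^ 2 + (b * 1) ^ 2) ≤ (a + b * x) ^ 2 + (b * y) ^ 2 := by
    have a1 : min 1 (y1 ^ 2) * (a + b * x) ^ 2 ≤ 1 * (a + b * x) ^ 2 :=
      mul_le_mul_of_nonneg_right (min_le_left _ _) (by positivity)
    have a2 : min 1 (y1 ^ 2) * b ^ 2 ≤ y ^ 2 * b ^ 2 :=
      mul_le_mul_of_nonneg_right ((min_le_right _ _).trans (by gcongr)) (by positivity)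
    nlinarith
  have e0 : 0 ≤ min 1 (y1 ^ 2) * ((a + b * x) ^ 2 + (b * 1) ^ 2) :=
    mul_nonneg (le_min (by norm_num) (by positivity)) (by positivity)
  calc min 1 (y1 ^ 2) / y2 * (((a + b * x) ^ 2 + (b * 1) ^ 2) / (2 * 1))
      = min 1 (y1 ^ 2) * ((a + b * x) ^ 2 + (b * 1) ^ 2) / (2 * y2) := by
        field_simp
    _ ≤ min 1 (y1 ^ 2) * ((a + b * x) ^ 2 + (b * 1) ^ 2) / (2 * y) := by
        exact div_le_div_of_nonneg_left e0 (by positivity) (by linarith)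
    _ ≤ ((a + b * x) ^ 2 + (b * y) ^ 2) / (2 * y) := by
        exact div_le_div_of_nonneg_right e1 (by positivity)

theorem qp_ge (x y : Pl k → ℝ) (y1 y2 : ℝ) (h1 : 0 < y1) (h2 : 0 < y2) (hy1 : ∀ v, y1 ≤ y v)
    (hy2 : ∀ v, y v ≤ y2) (u : V2 k) :
    (min 1 (y1 ^ 2) / y2) ^ Fintype.card (Pl k) * qp x (fun _ => 1) u ≤ qp x y u := by
  unfold qp
  rw [← Finset.card_univ, ← Finset.prod_const, ← Finset.prod_mul_distrib]
  refine Finset.prod_le_prod (fun v _ => ?_) (fun v _ => qr_ge _ _ _ _ _ _ h1 (hy1 v) (hy2 v))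
  have : 0 ≤ min 1 (y1 ^ 2) := le_min (by norm_num) (by positivity)
  unfold qr
  positivity

open Classical in
/-- one term of the central value -/
noncomputable def tm (L : La k) (N : ℕ) (b : Pl k → ℝ) (u : V2 k) (W : Pl k → ℂ) : ℂ :=
  if u ∈ L ∧ u ∈ Fo k then Kc (dg k) (1 / 2) (qn (hx b) (hy W) u / (N : ℂ)) else 0

open Classical in
theorem tm_le (hEZA : T_EZA) (hLIX : T_LIX) (hQCX : T_QCX) {C : ℝ} (hC : 0 ≤ C)
    (h : ∀ r : ℂ, 0 < r.re → |r.im| ≤ r.re / 10 → ‖Kc (dg k) (1 / 2) r‖ ≤ C * (‖r‖ ^ 2)⁻¹)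
    (L : La k) (b : Pl k → ℝ) (W : Pl k → ℂ) (hW : W ∈ Sc k) (N : ℕ) (hN : 0 < N) (u : V2 k) :
    ‖tm L N b u W‖ ≤ C * (N : ℝ) ^ 2 * 4 ^ dg k *
        (if u ∈ Fo k then
          qp (fun v => b v / 2) (fun v => Real.sqrt ‖W v‖ / 2) u ^ (-2 : ℝ) else 0) := by
  by_cases hu : u ∈ Fo k
  · have h0 : u ≠ 0 := hu.1
    obtain ⟨q1, q2, q3⟩ := tbd hEZA hLIX hQCX hC h b W hW N hN u h0
    rw [if_pos hu, Real.rpow_neg q1.le, Real.rpow_two]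
    unfold tm
    split_ifs
    · exact q3
    · rw [norm_zero]; positivity
  · rw [if_neg hu]
    unfold tm
    rw [if_neg (fun h' => hu h'.2)]
    simp

open Classical in
/-- the local majorant -/
theorem tm_le' (hEZA : T_EZA) (hLIX : T_LIX) (hQCX : T_QCX) {C : ℝ} (hC : 0 ≤ C)
    (h : ∀ r : ℂ, 0 < r.re → |r.im| ≤ r.re / 10 → ‖Kc (dg k) (1 / 2) r‖ ≤ C * (‖r‖ ^ 2)⁻¹)
    (L : La k) (b : Pl k → ℝ) (W : Pl k → ℂ) (hW : W ∈ Sc k) (N : ℕ) (hN : 0 < N)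
    (y1 y2 : ℝ) (h1 : 0 < y1) (h2 : 0 < y2) (hy1 : ∀ v, y1 ≤ Real.sqrt ‖W v‖ / 2)
    (hy2 : ∀ v, Real.sqrt ‖W v‖ / 2 ≤ y2) (u : V2 k) :
    ‖tm L N b u W‖ ≤ C * (N : ℝ) ^ 2 * 4 ^ dg k *
      ((min 1 (y1 ^ 2) / y2) ^ Fintype.card (Pl k)) ^ (-2 : ℝ) *
        (if u ∈ Fo k then qp (fun v => b v / 2) (fun _ => 1) u ^ (-2 : ℝ) else 0) := by
  refine (tm_le hEZA hLIX hQCX hC h L b W hW N hN u).trans ?_
  have key : (if u ∈ Fo k then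
      qp (fun v => b v / 2) (fun v => Real.sqrt ‖W v‖ / 2) u ^ (-2 : ℝ) else 0) ≤
      ((min 1 (y1 ^ 2) / y2) ^ Fintype.card (Pl k)) ^ (-2 : ℝ) *
        (if u ∈ Fo k then qp (fun v => b v / 2) (fun _ => 1) u ^ (-2 : ℝ) else 0) := by
    by_cases hu : u ∈ Fo k
    · rw [if_pos hu, if_pos hu]
      have hm : 0 < (min 1 (y1 ^ 2) / y2) ^ Fintype.card (Pl k) := by
        have : 0 < min 1 (y1 ^ 2) := lt_min (by norm_num) (by positivity)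
        positivity
      have hq : 0 < qp (fun v => b v / 2) (fun _ => 1) u :=
        (hEZA k (Lb ((1 : (Ideal (𝓞 k))⁰) : Ideal (𝓞 k)) ((1 : (Ideal (𝓞 k))⁰) : Ideal (𝓞 k)))
          (fun v => b v / 2) (fun _ => (1 : ℝ)) (hLIX k 1 1).2.1 (fun _ => one_pos)).1 u hu.1
      rw [← Real.mul_rpow hm.le hq.le]
      exact Real.rpow_le_rpow_of_nonpos (mul_pos hm hq) (qp_ge _ _ y1 y2 h1 h2 hy1 hy2 u)
        (by norm_num)
    · rw [if_neg hu, if_neg hu]; simp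
  calc C * (N : ℝ) ^ 2 * 4 ^ dg k * (if u ∈ Fo k then
      qp (fun v => b v / 2) (fun v => Real.sqrt ‖W v‖ / 2) u ^ (-2 : ℝ) else 0)
      ≤ C * (N : ℝ) ^ 2 * 4 ^ dg k * (((min 1 (y1 ^ 2) / y2) ^ Fintype.card (Pl k)) ^ (-2 : ℝ) *
        (if u ∈ Fo k then qp (fun v => b v / 2) (fun _ => 1) u ^ (-2 : ℝ) else 0)) :=
        mul_le_mul_of_nonneg_left key (by positivity)
    _ = _ := by ring

omit [IsTotallyReal k] in
theorem slit {W : Pl k → ℂ} (hW : W ∈ Sc k) (v : Pl k) : W v ∈ Complex.slitPlane :=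
  Or.inl (hW v).1

omit [IsTotallyReal k] in
theorem half_ne {W : Pl k → ℂ} (hW : W ∈ Sc k) (v : Pl k) : 2 * (W v ^ (1 / 2 : ℂ) / 2) ≠ 0 := by
  have h0 : W v ≠ 0 := by
    have := Wpos hW v
    rwa [norm_pos_iff] at this
  have h1 : W v ^ (1 / 2 : ℂ) ≠ 0 := by
    rw [Ne, Complex.cpow_eq_zero_iff]
    exact fun h => h0 h.1
  intro h
  apply h1
  rw [mul_div_cancel₀] at h
  · exact h
  · norm_num

/-- the form is continuous -/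
theorem qn_cont (b : Pl k → ℝ) (u : V2 k) :
    ContinuousOn (fun W : Pl k → ℂ => qn (hx b) (hy W) u) (Sc k) := by
  unfold qn
  refine continuousOn_finsetProd _ (fun v _ => ?_)
  unfold qc hx hy
  have hc : ContinuousOn (fun W : Pl k → ℂ => W v ^ (1 / 2 : ℂ) / 2) (Sc k) :=
    (ContinuousOn.cpow_const (continuous_apply v).continuousOn (fun W hW => slit hW v)).div_const 2
  refine ContinuousOn.div ?_ ?_ (fun W hW => half_ne hW v)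
  · exact continuousOn_const.add ((continuousOn_const.mul hc).pow 2)
  · exact continuousOn_const.mul hc

/-- the form is holomorphic along a curve -/
theorem qn_diff (b : Pl k → ℝ) (u : V2 k) (U : Set ℂ) (W : ℂ → Pl k → ℂ)
    (hW : ∀ v, DifferentiableOn ℂ (fun s => W s v) U) (hS : ∀ s ∈ U, W s ∈ Sc k) :
    DifferentiableOn ℂ (fun s => qn (hx b) (hy (W s)) u) U := by
  unfold qn
  refine DifferentiableOn.fun_finsetProd (fun v _ => ?_)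
  unfold qc hx hy
  have hc : DifferentiableOn ℂ (fun s : ℂ => W s v ^ (1 / 2 : ℂ) / 2) U :=
    (DifferentiableOn.cpow_const (hW v) (fun s hs => slit (hS s hs) v)).div_const 2
  refine DifferentiableOn.div ?_ ?_ (fun s hs => half_ne (hS s hs) v)
  · exact (differentiableOn_const _).add (((differentiableOn_const _).mul hc).pow 2)
  · exact (differentiableOn_const _).mul hc

theorem tm_cont (hKCD : T_KCD) (hEZA : T_EZA) (hLIX : T_LIX) (hQCX : T_QCX) {C : ℝ} (hC : 0 ≤ C)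
    (h : ∀ r : ℂ, 0 < r.re → |r.im| ≤ r.re / 10 → ‖Kc (dg k) (1 / 2) r‖ ≤ C * (‖r‖ ^ 2)⁻¹)
    (L : La k) (N : ℕ) (hN : 0 < N) (b : Pl k → ℝ) (u : V2 k) :
    ContinuousOn (tm L N b u) (Sc k) := by
  by_cases hu : u ∈ L ∧ u ∈ Fo k
  · have e : tm L N b u = fun W => Kc (dg k) (1 / 2) (qn (hx b) (hy W) u / (N : ℂ)) := by
      funext W; unfold tm; rw [if_pos hu]
    rw [e]
    refine ContinuousOn.comp (t := Complex.slitPlane) (g := Kc (dg k) (1 / 2))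
      (hKCD _ _ (by norm_num) (by norm_num)).continuousOn ((qn_cont b u).div_const _) ?_
    intro W hW
    exact Or.inl (tbd hEZA hLIX hQCX hC h b W hW N hN u hu.2.1).2.1
  · have e : tm L N b u = fun W => 0 := by
      funext W; unfold tm; rw [if_neg hu]
    rw [e]
    exact continuousOn_const

theorem tm_diff (hKCD : T_KCD) (hEZA : T_EZA) (hLIX : T_LIX) (hQCX : T_QCX) {C : ℝ} (hC : 0 ≤ C)
    (h : ∀ r : ℂ, 0 < r.re → |r.im| ≤ r.re / 10 → ‖Kc (dg k) (1 / 2) r‖ ≤ C * (‖r‖ ^ 2)⁻¹)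
    (L : La k) (N : ℕ) (hN : 0 < N) (b : Pl k → ℝ) (u : V2 k) (U : Set ℂ) (W : ℂ → Pl k → ℂ)
    (hW : ∀ v, DifferentiableOn ℂ (fun s => W s v) U) (hS : ∀ s ∈ U, W s ∈ Sc k) :
    DifferentiableOn ℂ (fun s => tm L N b u (W s)) U := by
  by_cases hu : u ∈ L ∧ u ∈ Fo k
  · have e : (fun s => tm L N b u (W s)) =
        fun s => Kc (dg k) (1 / 2) (qn (hx b) (hy (W s)) u / (N : ℂ)) := by
      funext s; unfold tm; rw [if_pos hu]
    rw [e]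
    refine DifferentiableOn.fun_comp (t := Complex.slitPlane) (g := Kc (dg k) (1 / 2))
      (hKCD _ _ (by norm_num) (by norm_num)) ((qn_diff b u U W hW hS).div_const _) ?_
    intro s hs
    exact Or.inl (tbd hEZA hLIX hQCX hC h b (W s) (hS s hs) N hN u hu.2.1).2.1
  · have e : (fun s => tm L N b u (W s)) = fun s => 0 := by
      funext s; unfold tm; rw [if_neg hu]
    rw [e]
    exact differentiableOn_const _

/-- the neighbourhoods -/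
def bx (y1 y2 : ℝ) : Set (Pl k → ℂ) :=
  ⋂ v : Pl k, ({W | y1 < Real.sqrt ‖W v‖ / 2} ∩ {W | Real.sqrt ‖W v‖ / 2 < y2})

omit [IsTotallyReal k] in
theorem bx_open (y1 y2 : ℝ) : IsOpen (bx (k := k) y1 y2) := by
  unfold bx
  have hc : ∀ v : Pl k, Continuous (fun W : Pl k → ℂ => Real.sqrt ‖W v‖ / 2) := fun v => by
    fun_prop
  exact isOpen_iInter_of_finite (fun v =>
    (isOpen_lt continuous_const (hc v)).inter (isOpen_lt (hc v) continuous_const))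

omit [IsTotallyReal k] in
theorem bx_ex {W : Pl k → ℂ} (hW : W ∈ Sc k) : ∃ y1 y2 : ℝ, 0 < y1 ∧ 0 < y2 ∧ W ∈ bx y1 y2 := by
  have hy : ∀ v : Pl k, 0 < Real.sqrt ‖W v‖ / 2 := fun v => by
    have := Real.sqrt_pos.2 (Wpos hW v)
    positivity
  have s1 : 0 ≤ ∑ v : Pl k, (Real.sqrt ‖W v‖ / 2)⁻¹ :=
    Finset.sum_nonneg (fun v _ => (inv_pos.2 (hy v)).le)
  have s2 : 0 ≤ ∑ v : Pl k, Real.sqrt ‖W v‖ / 2 :=
    Finset.sum_nonneg (fun v _ => (hy v).le)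
  refine ⟨(1 + ∑ v : Pl k, (Real.sqrt ‖W v‖ / 2)⁻¹)⁻¹, 1 + ∑ v : Pl k, Real.sqrt ‖W v‖ / 2,
    by positivity, by positivity, ?_⟩
  unfold bx
  rw [mem_iInter]
  intro v
  constructor
  · change (1 + ∑ v : Pl k, (Real.sqrt ‖W v‖ / 2)⁻¹)⁻¹ < Real.sqrt ‖W v‖ / 2
    rw [inv_lt_comm₀ (by positivity) (hy v)]
    have := Finset.single_le_sum (f := fun v : Pl k => (Real.sqrt ‖W v‖ / 2)⁻¹)
      (fun v _ => (inv_pos.2 (hy v)).le) (Finset.mem_univ v)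
    linarith
  · change Real.sqrt ‖W v‖ / 2 < 1 + ∑ v : Pl k, Real.sqrt ‖W v‖ / 2
    have := Finset.single_le_sum (f := fun v : Pl k => Real.sqrt ‖W v‖ / 2)
      (fun v _ => (hy v).le) (Finset.mem_univ v)
    linarith

theorem sum_cont (hKCD : T_KCD) (hEZA : T_EZA) (hLIX : T_LIX) (hQCX : T_QCX) (hEBD : T_EBD)
    {C : ℝ} (hC : 0 ≤ C)
    (h : ∀ r : ℂ, 0 < r.re → |r.im| ≤ r.re / 10 → ‖Kc (dg k) (1 / 2) r‖ ≤ C * (‖r‖ ^ 2)⁻¹)
    (L : La k) (N : ℕ) (hN : 0 < N) (b : Pl k → ℝ) :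
    ContinuousOn (fun W => ∑' u : V2 k, tm L N b u W) (Sc k) := by
  obtain ⟨C1, j1, hC1, hE⟩ := hEBD k
  refine continuousOn_of_locally_continuousOn (fun W0 hW0 => ?_)
  obtain ⟨y1, y2, h1, h2, hm⟩ := bx_ex hW0
  refine ⟨bx y1 y2, bx_open y1 y2, hm, ?_⟩
  refine continuousOn_tsum
    (fun u => (tm_cont hKCD hEZA hLIX hQCX hC h L N hN b u).mono inter_subset_left)
    ((hE (fun v => b v / 2) (fun _ => 1) (fun _ => one_pos)).1.mul_left (C * (N : ℝ) ^ 2 * 4 ^ dg k *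
      ((min 1 (y1 ^ 2) / y2) ^ Fintype.card (Pl k)) ^ (-2 : ℝ))) (fun u W hW => ?_)
  have hb := mem_iInter.1 hW.2
  exact tm_le' hEZA hLIX hQCX hC h L b W hW.1 N hN y1 y2 h1 h2 (fun v => (hb v).1.le)
    (fun v => (hb v).2.le) u

theorem sum_diff (hKCD : T_KCD) (hEZA : T_EZA) (hLIX : T_LIX) (hQCX : T_QCX) (hEBD : T_EBD)
    {C : ℝ} (hC : 0 ≤ C)
    (h : ∀ r : ℂ, 0 < r.re → |r.im| ≤ r.re / 10 → ‖Kc (dg k) (1 / 2) r‖ ≤ C * (‖r‖ ^ 2)⁻¹)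
    (L : La k) (N : ℕ) (hN : 0 < N) (b : Pl k → ℝ) (U : Set ℂ) (hU : IsOpen U) (W : ℂ → Pl k → ℂ)
    (hW : ∀ v, DifferentiableOn ℂ (fun s => W s v) U) (hS : ∀ s ∈ U, W s ∈ Sc k) :
    DifferentiableOn ℂ (fun s => ∑' u : V2 k, tm L N b u (W s)) U := by
  obtain ⟨C1, j1, hC1, hE⟩ := hEBD k
  intro s0 hs0
  obtain ⟨y1, y2, h1, h2, hm⟩ := bx_ex (hS s0 hs0)
  have hWc : ContinuousOn W U := continuousOn_pi.2 (fun v => (hW v).continuousOn)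
  have hO : IsOpen (U ∩ W ⁻¹' (bx y1 y2)) := hWc.isOpen_inter_preimage hU (bx_open y1 y2)
  have hd : DifferentiableOn ℂ (fun s => ∑' u : V2 k, tm L N b u (W s)) (U ∩ W ⁻¹' (bx y1 y2)) := by
    refine Complex.differentiableOn_tsum_of_summable_norm
      ((hE (fun v => b v / 2) (fun _ => 1) (fun _ => one_pos)).1.mul_left
        (C * (N : ℝ) ^ 2 * 4 ^ dg k *
        ((min 1 (y1 ^ 2) / y2) ^ Fintype.card (Pl k)) ^ (-2 : ℝ)))
      (fun u => (tm_diff hKCD hEZA hLIX hQCX hC h L N hN b u U W hW hS).mono inter_subset_left)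
      hO (fun u s hs => ?_)
    have hb := mem_iInter.1 hs.2
    exact tm_le' hEZA hLIX hQCX hC h L b (W s) (hS s hs.1) N hN y1 y2 h1 h2 (fun v => (hb v).1.le)
      (fun v => (hb v).2.le) u
  exact (hd.differentiableAt (hO.mem_nhds ⟨hs0, hm⟩)).differentiableWithinAt

theorem sqrt_bd {w : ℝ} (hw : 0 < w) :
    Real.sqrt w / 2 + (Real.sqrt w / 2)⁻¹ ≤ 4 * (w + w⁻¹) := by
  have hs : 0 < Real.sqrt w := Real.sqrt_pos.2 hw
  have hss : Real.sqrt w * Real.sqrt w = w := Real.mul_self_sqrt hw.le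
  have e : (Real.sqrt w / 2)⁻¹ = 2 * (Real.sqrt w)⁻¹ := by
    rw [inv_div, div_eq_mul_inv]
  have hi : 0 < w⁻¹ := inv_pos.2 hw
  have hsi : 0 < (Real.sqrt w)⁻¹ := inv_pos.2 hs
  have e2 : (Real.sqrt w)⁻¹ * (Real.sqrt w)⁻¹ = w⁻¹ := by
    rw [← mul_inv, hss]
  have e3 : w * w⁻¹ = 1 := mul_inv_cancel₀ hw.ne'
  rw [e]
  have a1 : Real.sqrt w ≤ (1 + w) / 2 := by nlinarith [sq_nonneg (Real.sqrt w - 1)]
  have a2 : (Real.sqrt w)⁻¹ ≤ (1 + w⁻¹) / 2 := by nlinarith [sq_nonneg ((Real.sqrt w)⁻¹ - 1)]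
  have e4 : Real.sqrt w * (Real.sqrt w)⁻¹ = 1 := mul_inv_cancel₀ hs.ne'
  have a3 : 2 ≤ w + w⁻¹ := by nlinarith [sq_nonneg (Real.sqrt w - (Real.sqrt w)⁻¹)]
  linarith

theorem two_le {w : ℝ} (hw : 0 < w) : 2 ≤ w + w⁻¹ := by
  have hs : 0 < Real.sqrt w := Real.sqrt_pos.2 hw
  have hss : Real.sqrt w * Real.sqrt w = w := Real.mul_self_sqrt hw.le
  have e2 : (Real.sqrt w)⁻¹ * (Real.sqrt w)⁻¹ = w⁻¹ := by
    rw [← mul_inv, hss]
  have e4 : Real.sqrt w * (Real.sqrt w)⁻¹ = 1 := mul_inv_cancel₀ hs.ne'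
  nlinarith [sq_nonneg (Real.sqrt w - (Real.sqrt w)⁻¹)]

open Classical in
theorem sum_bd (hKCB : T_KCB) (hEZA : T_EZA) (hLIX : T_LIX) (hQCX : T_QCX) (hEBD : T_EBD) :
    ∃ (C : ℝ) (j : ℕ), 0 < C ∧ ∀ (L : La k) (N : ℕ), 0 < N → ∀ (b : Pl k → ℝ) (W : Pl k → ℂ),
      W ∈ Sc k → ‖∑' u : V2 k, tm L N b u W‖ ≤
        C * (N : ℝ) ^ 2 * (∏ v, (‖W v‖ + ‖W v‖⁻¹)) ^ j := by
  obtain ⟨C1, j1, hC1, hE⟩ := hEBD k
  obtain ⟨C, hC, h⟩ := kbd hKCB (dg k)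
  refine ⟨(C + 1) * 4 ^ dg k * (C1 * (4 ^ Fintype.card (Pl k)) ^ j1), j1, by positivity,
    fun L N hN b W hW => ?_⟩
  have hy : ∀ v : Pl k, 0 < Real.sqrt ‖W v‖ / 2 := fun v => by
    have := Real.sqrt_pos.2 (Wpos hW v)
    positivity
  obtain ⟨hs, hb⟩ := hE (fun v => b v / 2) (fun v => Real.sqrt ‖W v‖ / 2) hy
  have h1 : ‖∑' u : V2 k, tm L N b u W‖ ≤ C * (N : ℝ) ^ 2 * 4 ^ dg k *
      ∑' u : V2 k, (if u ∈ Fo k then
          qp (fun v => b v / 2) (fun v => Real.sqrt ‖W v‖ / 2) u ^ (-2 : ℝ) else 0) :=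
    tsum_of_norm_bounded (hs.hasSum.mul_left _) (tm_le hEZA hLIX hQCX hC h L b W hW N hN)
  have h2 : (∏ v : Pl k, (Real.sqrt ‖W v‖ / 2 + (Real.sqrt ‖W v‖ / 2)⁻¹)) ≤
      4 ^ Fintype.card (Pl k) * ∏ v, (‖W v‖ + ‖W v‖⁻¹) := by
    rw [← Finset.card_univ, ← Finset.prod_const, ← Finset.prod_mul_distrib]
    refine Finset.prod_le_prod (fun v _ => ?_) (fun v _ => sqrt_bd (Wpos hW v))
    have := hy v
    positivity
  have h3 : (∏ v : Pl k, (Real.sqrt ‖W v‖ / 2 + (Real.sqrt ‖W v‖ / 2)⁻¹)) ^ j1 ≤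
      (4 ^ Fintype.card (Pl k)) ^ j1 * (∏ v, (‖W v‖ + ‖W v‖⁻¹)) ^ j1 := by
    rw [← mul_pow]
    refine pow_le_pow_left₀ (Finset.prod_nonneg (fun v _ => ?_)) h2 _
    have := hy v
    positivity
  have h4 : 0 ≤ (∏ v : Pl k, (‖W v‖ + ‖W v‖⁻¹)) ^ j1 :=
    pow_nonneg (Finset.prod_nonneg (fun v _ => by positivity)) _
  calc ‖∑' u : V2 k, tm L N b u W‖
      ≤ C * (N : ℝ) ^ 2 * 4 ^ dg k * (C1 *
        ((4 ^ Fintype.card (Pl k)) ^ j1 * (∏ v, (‖W v‖ + ‖W v‖⁻¹)) ^ j1)) :=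
        h1.trans (mul_le_mul_of_nonneg_left (hb.trans (mul_le_mul_of_nonneg_left h3 hC1.le))
          (by positivity))
    _ ≤ (C + 1) * (N : ℝ) ^ 2 * 4 ^ dg k * (C1 *
        ((4 ^ Fintype.card (Pl k)) ^ j1 * (∏ v, (‖W v‖ + ‖W v‖⁻¹)) ^ j1)) := by
        gcongr
        linarith
    _ = _ := by ring

open Classical in
theorem zc_eq (A f : Ideal (𝓞 k)) (b : Pl k → ℝ) (W : Pl k → ℂ) :
    zc A f b W = 2 * ((Real.sqrt (nm f / dk k) : ℝ) : ℂ) / gG (1 / 2) ^ dg k *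
      (∏ v, W v ^ (-(1 / 4) : ℂ)) *
      ∑ c : ClassGroup (𝓞 k), ∑' u : V2 k,
        tm (Lb (ci c) (A * f)) (dk k * ix (Lb (ci c) (A * f))) b u W := rfl

theorem ix_eq (hLIX : T_LIX) (A f : (Ideal (𝓞 k))⁰) (c : ClassGroup (𝓞 k)) :
    (ix (Lb (ci c) ((A : Ideal (𝓞 k)) * (f : Ideal (𝓞 k)))) : ℝ) =
      nm (ci c) ^ 2 * (nm (A : Ideal (𝓞 k)) * nm (f : Ideal (𝓞 k))) ∧
    ix (Lb (ci c) ((A : Ideal (𝓞 k)) * (f : Ideal (𝓞 k)))) ≠ 0 := by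
  have h := hLIX k (cr c) (A * f)
  have e : nm ((A : Ideal (𝓞 k)) * (f : Ideal (𝓞 k))) = nm (A : Ideal (𝓞 k)) * nm (f : Ideal (𝓞 k)) := by
    unfold nm
    rw [map_mul]
    push_cast
    rfl
  refine ⟨?_, h.2.1⟩
  rw [← e]
  exact h.1

open Classical in
theorem term_eq (hIXD : T_IXD) (hKRE : T_KRE) (hEZA : T_EZA) (L : La k) (hL : ix L ≠ 0)
    (b D : Pl k → ℝ) (hD : ∀ v, 0 < D v) (u : V2 k) :
    (((if u ∈ L ∧ u ∈ Fo k then
      2 * Vk k (qp (fun v => b v / 2) (fun v => Real.sqrt (D v) / 2) u / ix L) /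
        Real.sqrt (qp (fun v => b v / 2) (fun v => Real.sqrt (D v) / 2) u / ix L)
      else 0 : ℝ)) : ℂ) =
    (2 / ((Real.sqrt (dk k) : ℝ) : ℂ) / gG (1 / 2) ^ dg k) *
      tm L (dk k * ix L) b u (fun v => (D v : ℂ)) := by
  have hdk : 0 < dk k := (hIXD k).1
  have hdkr : (0 : ℝ) < dk k := by exact_mod_cast hdk
  have hixr : (0 : ℝ) < ix L := by exact_mod_cast Nat.pos_of_ne_zero hL
  unfold tm
  split_ifs with hu
  · have hy : ∀ v : Pl k, 0 < Real.sqrt (D v) / 2 := fun v => by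
      have := Real.sqrt_pos.2 (hD v)
      positivity
    obtain ⟨e1, e2, -⟩ := hEZA k L (fun v => b v / 2) (fun v => Real.sqrt (D v) / 2) hL hy
    have hq := e1 u hu.2.1
    set r : ℝ := qp (fun v => b v / 2) (fun v => Real.sqrt (D v) / 2) u / ix L with hr
    have hrp : 0 < r := by positivity
    have hqn : qn (hx b) (Pool.Agent.H61.NVK.hy (fun v => (D v : ℂ))) u =
        ((qp (fun v => b v / 2) (fun v => Real.sqrt (D v) / 2) u : ℝ) : ℂ) := by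
      rw [← e2 u]
      have e3 : Pool.Agent.H61.NVK.hy (fun v : Pl k => (D v : ℂ)) =
          fun v => ((Real.sqrt (D v) / 2 : ℝ) : ℂ) := by
        funext v
        unfold Pool.Agent.H61.NVK.hy
        rw [Real.sqrt_eq_rpow, Complex.ofReal_div, Complex.ofReal_cpow (hD v).le]
        push_cast
        rfl
      rw [e3]
      rfl
    have hK : qn (hx b) (Pool.Agent.H61.NVK.hy (fun v => (D v : ℂ))) u /
        ((dk k * ix L : ℕ) : ℂ) = ((r / dk k : ℝ) : ℂ) := by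
      rw [hqn, hr]
      push_cast
      field_simp
    rw [hK]
    have hV := hKRE.2.2 k r hrp hdk
    rw [Complex.ofReal_div, Complex.ofReal_mul, hV, Real.sqrt_div hrp.le, Complex.ofReal_div]
    have h1 : ((Real.sqrt r : ℝ) : ℂ) ≠ 0 := by
      have := Real.sqrt_pos.2 hrp
      exact_mod_cast this.ne'
    have h2 : ((Real.sqrt (dk k) : ℝ) : ℂ) ≠ 0 := by
      have := Real.sqrt_pos.2 hdkr
      exact_mod_cast this.ne'
    push_cast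
    field_simp
  · simp

open Classical in
theorem part1 (hIXD : T_IXD) (hKRE : T_KRE) (hEZA : T_EZA) (hLIX : T_LIX) (hZFE : T_ZFE)
    (A f : (Ideal (𝓞 k))⁰) (b D : Pl k → ℝ) (hD : ∀ v, 0 < D v) :
    zc (A : Ideal (𝓞 k)) f b (fun v => (D v : ℂ)) = ((zf (A : Ideal (𝓞 k)) f b D : ℝ) : ℂ) := by
  have hdk : 0 < dk k := (hIXD k).1
  have hdkr : (0 : ℝ) < dk k := by exact_mod_cast hdk
  obtain ⟨z1, z2, z3, z4⟩ := hZFE k (1 : (Ideal (𝓞 k))⁰) A f b D hD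
  rw [z4, zc_eq]
  unfold ze
  rw [Complex.ofReal_mul, Complex.ofReal_sum]
  simp_rw [Complex.ofReal_tsum]
  have e1 : ∀ c : ClassGroup (𝓞 k), ∑' u : V2 k,
      (((if u ∈ Lb (ci c) ((A : Ideal (𝓞 k)) * (f : Ideal (𝓞 k))) ∧ u ∈ Fo k then
      2 * Vk k (qp (fun v => b v / 2) (fun v => Real.sqrt (D v) / 2) u /
        ix (Lb (ci c) ((A : Ideal (𝓞 k)) * (f : Ideal (𝓞 k))))) /
        Real.sqrt (qp (fun v => b v / 2) (fun v => Real.sqrt (D v) / 2) u /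
          ix (Lb (ci c) ((A : Ideal (𝓞 k)) * (f : Ideal (𝓞 k)))))
      else 0 : ℝ)) : ℂ) =
      (2 / ((Real.sqrt (dk k) : ℝ) : ℂ) / gG (1 / 2) ^ dg k) *
      ∑' u : V2 k, tm (Lb (ci c) ((A : Ideal (𝓞 k)) * (f : Ideal (𝓞 k))))
        (dk k * ix (Lb (ci c) ((A : Ideal (𝓞 k)) * (f : Ideal (𝓞 k))))) b u
          (fun v => (D v : ℂ)) := by
    intro c
    rw [← tsum_mul_left]
    exact tsum_congr (fun u => term_eq hIXD hKRE hEZA _ (ix_eq hLIX A f c).2 b D hD u)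
  rw [Finset.sum_congr rfl (fun c _ => e1 c), ← Finset.mul_sum]
  have e2 : (∏ v : Pl k, ((D v : ℝ) : ℂ) ^ (-(1 / 4) : ℂ)) =
      (((Real.sqrt (sD D))⁻¹ : ℝ) : ℂ) := by
    have a1 : ∀ v : Pl k, ((D v : ℝ) : ℂ) ^ (-(1 / 4) : ℂ) =
        ((D v ^ (-(1 / 4) : ℝ) : ℝ) : ℂ) := by
      intro v
      rw [Complex.ofReal_cpow (hD v).le]
      push_cast
      rfl
    rw [Finset.prod_congr rfl (fun v _ => a1 v), ← Complex.ofReal_prod,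
      Real.finsetProd_rpow _ _ (fun v _ => (hD v).le)]
    congr 1
    have hP : 0 ≤ ∏ v : Pl k, D v := Finset.prod_nonneg (fun v _ => (hD v).le)
    unfold sD
    rw [Real.rpow_neg hP, Real.sqrt_eq_rpow, Real.sqrt_eq_rpow, ← Real.rpow_mul hP]
    norm_num
  rw [e2]
  have h1 : ((Real.sqrt (sD D) : ℝ) : ℂ) ≠ 0 := by
    have := Real.sqrt_pos.2 z1
    exact_mod_cast this.ne'
  have h2 : ((Real.sqrt (dk k) : ℝ) : ℂ) ≠ 0 := by
    have := Real.sqrt_pos.2 hdkr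
    exact_mod_cast this.ne'
  rw [Real.sqrt_div' _ hdkr.le]
  push_cast
  ring

theorem part2 (hIXD : T_IXD) (hKCB : T_KCB) (hKCD : T_KCD) (hEZA : T_EZA) (hLIX : T_LIX)
    (hQCX : T_QCX) (hEBD : T_EBD) (A f : (Ideal (𝓞 k))⁰) (b : Pl k → ℝ) :
    ContinuousOn (zc (A : Ideal (𝓞 k)) f b) (Sc k) := by
  obtain ⟨C, hC, h⟩ := kbd hKCB (dg k)
  have e : zc (A : Ideal (𝓞 k)) f b = fun W =>
      2 * ((Real.sqrt (nm (f : Ideal (𝓞 k)) / dk k) : ℝ) : ℂ) / gG (1 / 2) ^ dg k *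
      (∏ v, W v ^ (-(1 / 4) : ℂ)) *
      ∑ c : ClassGroup (𝓞 k), ∑' u : V2 k,
        tm (Lb (ci c) ((A : Ideal (𝓞 k)) * (f : Ideal (𝓞 k))))
          (dk k * ix (Lb (ci c) ((A : Ideal (𝓞 k)) * (f : Ideal (𝓞 k))))) b u W := rfl
  rw [e]
  refine (continuousOn_const.mul ?_).mul ?_
  · exact continuousOn_finsetProd _ (fun v _ =>
      ContinuousOn.cpow_const (continuous_apply v).continuousOn (fun W hW => slit hW v))
  · exact continuousOn_finsetSum _ (fun c _ => sum_cont hKCD hEZA hLIX hQCX hEBD hC h _ _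
      (Nat.mul_pos (hIXD k).1 (Nat.pos_of_ne_zero (ix_eq hLIX A f c).2)) b)

theorem part3 (hIXD : T_IXD) (hKCB : T_KCB) (hKCD : T_KCD) (hEZA : T_EZA) (hLIX : T_LIX)
    (hQCX : T_QCX) (hEBD : T_EBD) (A f : (Ideal (𝓞 k))⁰) (b : Pl k → ℝ) (U : Set ℂ)
    (W : ℂ → Pl k → ℂ) (hU : IsOpen U)
    (hW : ∀ v, DifferentiableOn ℂ (fun s => W s v) U) (hS : ∀ s ∈ U, W s ∈ Sc k) :
    DifferentiableOn ℂ (fun s => zc (A : Ideal (𝓞 k)) f b (W s)) U := by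
  obtain ⟨C, hC, h⟩ := kbd hKCB (dg k)
  have e : (fun s => zc (A : Ideal (𝓞 k)) f b (W s)) = fun s =>
      2 * ((Real.sqrt (nm (f : Ideal (𝓞 k)) / dk k) : ℝ) : ℂ) / gG (1 / 2) ^ dg k *
      (∏ v, W s v ^ (-(1 / 4) : ℂ)) *
      ∑ c : ClassGroup (𝓞 k), ∑' u : V2 k,
        tm (Lb (ci c) ((A : Ideal (𝓞 k)) * (f : Ideal (𝓞 k))))
          (dk k * ix (Lb (ci c) ((A : Ideal (𝓞 k)) * (f : Ideal (𝓞 k))))) b u (W s) := rfl
  rw [e]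
  refine ((differentiableOn_const _).mul ?_).mul ?_
  · exact DifferentiableOn.fun_finsetProd (fun v _ =>
      DifferentiableOn.cpow_const (hW v) (fun s hs => slit (hS s hs) v))
  · exact DifferentiableOn.fun_sum (fun c _ => sum_diff hKCD hEZA hLIX hQCX hEBD hC h _ _
      (Nat.mul_pos (hIXD k).1 (Nat.pos_of_ne_zero (ix_eq hLIX A f c).2)) b U hU W hW hS)

omit [IsTotallyReal k] in
theorem P_one (W : Pl k → ℂ) (hW : W ∈ Sc k) : 1 ≤ ∏ v, (‖W v‖ + ‖W v‖⁻¹) := by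
  calc (1 : ℝ) = ∏ v : Pl k, (1 : ℝ) := by rw [Finset.prod_const_one]
    _ ≤ ∏ v, (‖W v‖ + ‖W v‖⁻¹) := by
      refine Finset.prod_le_prod (fun _ _ => zero_le_one) (fun v _ => ?_)
      have := two_le (Wpos hW v)
      linarith

theorem n1 (z s d g : ℝ) (hd : 1 ≤ d) (hz : 1 ≤ z) (hs : z + 1 ≤ s) (hg : 0 ≤ g) :
    ‖(2 : ℂ)‖ * ‖((Real.sqrt (z / d) : ℝ) : ℂ)‖ / g ≤ (2 / g) * s := by
  have a1 : ‖((Real.sqrt (z / d) : ℝ) : ℂ)‖ ≤ s := by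
    rw [Complex.norm_real, Real.norm_of_nonneg (Real.sqrt_nonneg _), Real.sqrt_le_left (by linarith)]
    calc z / d ≤ z := div_le_self (by linarith) hd
      _ ≤ s ^ 2 := by nlinarith
  have a2 : ‖(2 : ℂ)‖ = 2 := by norm_num
  rw [a2, mul_div_right_comm]
  exact mul_le_mul_of_nonneg_left a1 (by positivity)

omit [IsTotallyReal k] in
theorem n2 (W : Pl k → ℂ) (hW : W ∈ Sc k) :
    ‖∏ v : Pl k, W v ^ (-(1 / 4) : ℂ)‖ ≤ ∏ v, (‖W v‖ + ‖W v‖⁻¹) := by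
  rw [norm_prod]
  refine Finset.prod_le_prod (fun v _ => norm_nonneg _) (fun v _ => ?_)
  have hw := Wpos hW v
  have e : (-(1 / 4) : ℂ) = ((-(1 / 4) : ℝ) : ℂ) := by push_cast; rfl
  rw [e, Complex.norm_cpow_real]
  rcases le_total 1 ‖W v‖ with h1 | h1
  · calc ‖W v‖ ^ (-(1 / 4) : ℝ) ≤ 1 := Real.rpow_le_one_of_one_le_of_nonpos h1 (by norm_num)
      _ ≤ ‖W v‖ + ‖W v‖⁻¹ := by
        have := inv_pos.2 hw
        linarith
  · calc ‖W v‖ ^ (-(1 / 4) : ℝ) ≤ ‖W v‖ ^ (-1 : ℝ) :=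
          Real.rpow_le_rpow_of_exponent_ge hw h1 (by norm_num)
      _ = ‖W v‖⁻¹ := Real.rpow_neg_one _
      _ ≤ ‖W v‖ + ‖W v‖⁻¹ := by linarith

theorem n3r (C d m x z P : ℝ) (j : ℕ) (hC : 0 ≤ C) (hx : 1 ≤ x) (hz : 1 ≤ z) (hP : 1 ≤ P) :
    C * (d * (m ^ 2 * (x * z))) ^ 2 * P ^ j ≤ C * (d ^ 2 * m ^ 4) * (x + z) ^ 4 * P ^ j := by
  have b1 : (x * z) ^ 2 ≤ (x + z) ^ 4 := by
    have : x * z ≤ (x + z) ^ 2 := by nlinarith
    calc (x * z) ^ 2 ≤ ((x + z) ^ 2) ^ 2 := pow_le_pow_left₀ (by positivity) this 2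
      _ = (x + z) ^ 4 := by ring
  calc C * (d * (m ^ 2 * (x * z))) ^ 2 * P ^ j
      = (C * (d ^ 2 * m ^ 4) * P ^ j) * (x * z) ^ 2 := by ring
    _ ≤ (C * (d ^ 2 * m ^ 4) * P ^ j) * (x + z) ^ 4 :=
        mul_le_mul_of_nonneg_left b1 (by positivity)
    _ = _ := by ring

theorem n4r (G C D S s P : ℝ) (j : ℕ) (hG : 0 ≤ G) (hC : 0 ≤ C) (hD : 0 ≤ D) (hS : 0 ≤ S)
    (hs : 1 ≤ s) (hP : 1 ≤ P) :
    (G * s) * P * (C * (D * S) * s ^ 4 * P ^ j) ≤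
      (G + 1) * (C * (D * (S + 1))) * s ^ (j + 6) * P ^ (j + 6) := by
  have p1 : s ^ 5 ≤ s ^ (j + 6) := pow_le_pow_right₀ hs (by omega)
  have p2 : P ^ (j + 1) ≤ P ^ (j + 6) := pow_le_pow_right₀ hP (by omega)
  have p3 : s ^ 5 * P ^ (j + 1) ≤ s ^ (j + 6) * P ^ (j + 6) :=
    mul_le_mul p1 p2 (by positivity) (by positivity)
  have p4 : G * (C * (D * S)) ≤ (G + 1) * (C * (D * (S + 1))) := by
    have q1 : C * (D * S) ≤ C * (D * (S + 1)) := by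
      refine mul_le_mul_of_nonneg_left (mul_le_mul_of_nonneg_left (by linarith) hD) hC
    exact mul_le_mul (by linarith) q1 (by positivity) (by positivity)
  calc (G * s) * P * (C * (D * S) * s ^ 4 * P ^ j)
      = (G * (C * (D * S))) * (s ^ 5 * P ^ (j + 1)) := by ring
    _ ≤ ((G + 1) * (C * (D * (S + 1)))) * (s ^ (j + 6) * P ^ (j + 6)) :=
        mul_le_mul p4 p3 (by positivity) (by positivity)
    _ = _ := by ring

theorem part4 (hIXD : T_IXD) (hKCB : T_KCB) (hEZA : T_EZA) (hLIX : T_LIX)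
    (hQCX : T_QCX) (hEBD : T_EBD) :
    ∃ (C : ℝ) (j : ℕ), 0 < C ∧ ∀ (A f : (Ideal (𝓞 k))⁰) (b : Pl k → ℝ) (W : Pl k → ℂ),
      W ∈ Sc k → ‖zc (A : Ideal (𝓞 k)) f b W‖ ≤
        C * (nm (A : Ideal (𝓞 k)) + nm (f : Ideal (𝓞 k))) ^ j * (∏ v, (‖W v‖ + ‖W v‖⁻¹)) ^ j := by
  obtain ⟨C, j, hC, hb⟩ := sum_bd (k := k) hKCB hEZA hLIX hQCX hEBD
  have hdk : 0 < dk k := (hIXD k).1
  have hdk1 : (1 : ℝ) ≤ dk k := by exact_mod_cast hdk
  have hs0 : 0 ≤ ∑ c : ClassGroup (𝓞 k), nm (ci c) ^ 4 :=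
    Finset.sum_nonneg (fun c _ => by positivity)
  have hg0 : 0 ≤ 2 / ‖gG (1 / 2)‖ ^ dg k := by positivity
  refine ⟨(2 / ‖gG (1 / 2)‖ ^ dg k + 1) *
    (C * ((dk k : ℝ) ^ 2 * (∑ c : ClassGroup (𝓞 k), nm (ci c) ^ 4 + 1))), j + 6,
    by positivity, fun A f b W hW => ?_⟩
  have hA1 : 1 ≤ nm (A : Ideal (𝓞 k)) := (hLIX k A A).2.2.1
  have hf1 : 1 ≤ nm (f : Ideal (𝓞 k)) := (hLIX k f f).2.2.1
  have hP1 := P_one W hW
  have hS1 : 1 ≤ nm (A : Ideal (𝓞 k)) + nm (f : Ideal (𝓞 k)) := by linarith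
  have m3 : ‖∑ c : ClassGroup (𝓞 k), ∑' u : V2 k,
        tm (Lb (ci c) ((A : Ideal (𝓞 k)) * (f : Ideal (𝓞 k))))
          (dk k * ix (Lb (ci c) ((A : Ideal (𝓞 k)) * (f : Ideal (𝓞 k))))) b u W‖ ≤
      C * ((dk k : ℝ) ^ 2 * (∑ c : ClassGroup (𝓞 k), nm (ci c) ^ 4)) *
        (nm (A : Ideal (𝓞 k)) + nm (f : Ideal (𝓞 k))) ^ 4 * (∏ v, (‖W v‖ + ‖W v‖⁻¹)) ^ j := by
    refine (norm_sum_le _ _).trans ?_
    have a1 : ∀ c ∈ (Finset.univ : Finset (ClassGroup (𝓞 k))), ‖∑' u : V2 k,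
        tm (Lb (ci c) ((A : Ideal (𝓞 k)) * (f : Ideal (𝓞 k))))
          (dk k * ix (Lb (ci c) ((A : Ideal (𝓞 k)) * (f : Ideal (𝓞 k))))) b u W‖ ≤
        C * ((dk k : ℝ) ^ 2 * nm (ci c) ^ 4) *
          (nm (A : Ideal (𝓞 k)) + nm (f : Ideal (𝓞 k))) ^ 4 * (∏ v, (‖W v‖ + ‖W v‖⁻¹)) ^ j := by
      intro c _
      obtain ⟨i1, i2⟩ := ix_eq hLIX A f c
      refine (hb _ _ (Nat.mul_pos hdk (Nat.pos_of_ne_zero i2)) b W hW).trans ?_
      rw [Nat.cast_mul, i1]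
      exact n3r C (dk k) (nm (ci c)) _ _ _ j hC.le hA1 hf1 hP1
    refine (Finset.sum_le_sum a1).trans ?_
    rw [← Finset.sum_mul, ← Finset.sum_mul, ← Finset.mul_sum, ← Finset.mul_sum]
  have m1 := n1 (nm (f : Ideal (𝓞 k))) (nm (A : Ideal (𝓞 k)) + nm (f : Ideal (𝓞 k))) (dk k)
    (‖gG (1 / 2)‖ ^ dg k) hdk1 hf1 (by linarith) (by positivity)
  have m2 := n2 W hW
  have m4 := n4r (2 / ‖gG (1 / 2)‖ ^ dg k) C ((dk k : ℝ) ^ 2)
    (∑ c : ClassGroup (𝓞 k), nm (ci c) ^ 4) (nm (A : Ideal (𝓞 k)) + nm (f : Ideal (𝓞 k)))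
    (∏ v, (‖W v‖ + ‖W v‖⁻¹)) j hg0 hC.le (by positivity) hs0 hS1 hP1
  refine le_trans ?_ m4
  rw [zc_eq, norm_mul, norm_mul, norm_div, norm_mul, norm_pow]
  exact mul_le_mul (mul_le_mul m1 m2 (norm_nonneg _) (mul_nonneg hg0 (by linarith))) m3
    (norm_nonneg _) (mul_nonneg (mul_nonneg hg0 (by linarith)) (by linarith))

end

theorem pf_ZCX (hIXD : T_IXD) (hKCB : T_KCB) (hKCD : T_KCD) (hKRE : T_KRE) (hEZA : T_EZA)
    (hLIX : T_LIX) (hZFE : T_ZFE) (hEBD : T_EBD) (hQCX : T_QCX) : T_ZCX := by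
  intro k _ _ _
  refine ⟨fun A f b D hD => part1 hIXD hKRE hEZA hLIX hZFE A f b D hD,
    fun A f b => part2 hIXD hKCB hKCD hEZA hLIX hQCX hEBD A f b,
    fun A f b U W hU hW hS => part3 hIXD hKCB hKCD hEZA hLIX hQCX hEBD A f b U W hU hW hS,
    part4 hIXD hKCB hEZA hLIX hQCX hEBD⟩

end Pool.Agent.H96.NVE_ZCX
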