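import Pool.Agent.H61.NVK.TargetsE2

/-!
# NVK, part E, row SPL: the constant term of the theta function
-/

set_option autoImplicit false

open MeasureTheory Set Filter NumberField NumberField.InfinitePlace
open Pool.Agent.H65.CM4 Pool.Agent.H61.CM4 Pool.Agent.H61.NVK
open scoped Real nonZeroDivisors

namespace Pool.Agent.H96.NVE_SPL

theorem absplit {α β : Type} [DecidableEq α] [DecidableEq β] (G : α → ℝ) (H : β → ℝ)
    (cs : β → α → ℝ) (a0 : α) (b0 : β) (hG : Summable G) (hH : Summable H) (hG0 : ∀ a, 0 ≤ G a)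
    (hH0 : ∀ m, 0 ≤ H m) (hcs : ∀ m a, |cs m a| ≤ 1) (hGa : G a0 = 1) (hHb : H b0 = 1)
    (hcb : ∀ a, cs b0 a = 1) :
    ∑' a, G a * ∑' m, H m * cs m a = (∑' m, H m * cs m a0) + (∑' a, G a - 1) +
      ∑' p : β × α, if p.1 ≠ b0 ∧ p.2 ≠ a0 then G p.2 * (H p.1 * cs p.1 p.2) else 0 := by
  have hb : ∀ m a, ‖H m * cs m a‖ ≤ H m := fun m a => by
    rw [norm_mul, Real.norm_of_nonneg (hH0 m), Real.norm_eq_abs]
    exact mul_le_of_le_one_right (hH0 m) (hcs m a)
  have hHc : ∀ a, Summable (fun m => H m * cs m a) := fun a =>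
    Summable.of_norm_bounded hH (fun m => hb m a)
  have hS : ∀ a, ‖∑' m, H m * cs m a‖ ≤ ∑' m, H m := fun a =>
    tsum_of_norm_bounded hH.hasSum (fun m => hb m a)
  have hGS : Summable (fun a => G a * ∑' m, H m * cs m a) := by
    refine Summable.of_norm_bounded (hG.mul_right (∑' m, H m)) (fun a => ?_)
    rw [norm_mul, Real.norm_of_nonneg (hG0 a)]
    exact mul_le_mul_of_nonneg_left (hS a) (hG0 a)
  have hR : Summable (fun p : β × α =>
      if p.1 ≠ b0 ∧ p.2 ≠ a0 then G p.2 * (H p.1 * cs p.1 p.2) else 0) := by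
    have hHG : Summable (fun p : β × α => H p.1 * G p.2) := hH.mul_of_nonneg hG hH0 hG0
    refine Summable.of_norm_bounded hHG (fun p => ?_)
    split_ifs
    · rw [norm_mul, Real.norm_of_nonneg (hG0 _)]
      calc G p.2 * ‖H p.1 * cs p.1 p.2‖ ≤ G p.2 * H p.1 :=
            mul_le_mul_of_nonneg_left (hb _ _) (hG0 _)
        _ = H p.1 * G p.2 := mul_comm _ _
    · rw [norm_zero]; exact mul_nonneg (hH0 _) (hG0 _)
  have hR' : Summable (fun q : α × β =>
      if q.2 ≠ b0 ∧ q.1 ≠ a0 then G q.1 * (H q.2 * cs q.2 q.1) else 0) := by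
    have := (Equiv.prodComm α β).summable_iff.2 hR
    exact this
  have hRe : (∑' p : β × α, if p.1 ≠ b0 ∧ p.2 ≠ a0 then G p.2 * (H p.1 * cs p.1 p.2) else 0) =
      ∑' a, ∑' m, if m ≠ b0 ∧ a ≠ a0 then G a * (H m * cs m a) else 0 := by
    rw [← (Equiv.prodComm α β).tsum_eq]
    exact hR'.tsum_prod
  have hG1 : Summable (fun a => if a = a0 then 0 else G a) := by
    refine Summable.of_nonneg_of_le (fun a => ?_) (fun a => ?_) hG
    · split_ifs
      · exact le_refl _
      · exact hG0 a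
    · split_ifs
      · exact hG0 a
      · exact le_refl _
  have e1 : ∑' a, G a = 1 + ∑' a, if a = a0 then 0 else G a := by
    rw [hG.tsum_eq_add_tsum_ite a0, hGa]
  have e2 : ∀ a, (if a = a0 then 0 else G a * ∑' m, H m * cs m a) =
      (if a = a0 then 0 else G a) +
        ∑' m, if m ≠ b0 ∧ a ≠ a0 then G a * (H m * cs m a) else 0 := by
    intro a
    by_cases h : a = a0
    · simp [h]
    · rw [if_neg h, if_neg h, (hHc a).tsum_eq_add_tsum_ite b0, hHb, hcb, mul_add, ← tsum_mul_left]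
      congr 1
      · ring
      · refine tsum_congr (fun m => ?_)
        by_cases hm : m = b0
        · simp [hm]
        · simp [hm, h]
  rw [hGS.tsum_eq_add_tsum_ite a0, hGa, one_mul, hRe, tsum_congr e2, hG1.tsum_add hR'.prod, e1]
  ring

section

variable {k : Type} [Field k] [NumberField k] [IsTotallyReal k]

omit [NumberField k] in
theorem sq_rv (v : Pl k) (x : k) : (v x) ^ 2 = rv v x ^ 2 := by
  have h : ‖rv v x‖ = v x := norm_embedding_of_isReal (IsTotallyReal.isReal v) x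
  rw [← h, Real.norm_eq_abs, sq_abs]

theorem qK_eq (y : Pl k → ℝ) (x : k) :
    Pool.Agent.H25.HK.qK k y x = ∑ v : Pl k, Real.exp (y v) * rv v x ^ 2 := by
  unfold Pool.Agent.H25.HK.qK
  refine Finset.sum_congr rfl (fun v _ => ?_)
  have hm : v.mult = 1 := mult_isReal ⟨v, IsTotallyReal.isReal v⟩
  rw [hm, sq_rv]
  push_cast
  ring

open Classical in
theorem tF_eq (I : Pool.Agent.H25.HK.FI k) (y : Pl k → ℝ) :
    tF I y = ∑' r : k, if r ∈ I then
      Real.exp (-π * ∑ v : Pl k, Real.exp (y v) * rv v r ^ 2) else 0 := by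
  unfold tF Pool.Agent.H25.HK.th
  have h := tsum_subtype {x : k | x ∈ I}
    (fun r : k => Real.exp (-π * ∑ v : Pl k, Real.exp (y v) * rv v r ^ 2))
  have e1 : (∑' x : {x : k // x ∈ I}, Real.exp (-π * Pool.Agent.H25.HK.qK k y x)) =
      ∑' x : ({x : k | x ∈ I} : Set k),
        Real.exp (-π * ∑ v : Pl k, Real.exp (y v) * rv v (x : k) ^ 2) :=
    tsum_congr (fun x => by rw [qK_eq])
  rw [e1, h]
  exact tsum_congr (fun r => Set.indicator_apply _ _ _)

theorem ex2_eq (y c : Pl k → ℝ) (p : k × k) (t : ℝ) :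
    Real.exp (-(π * t) * ex2 y c p) =
      Real.exp (-π * ∑ v : Pl k, (t * (Real.exp (c v) * y v)) * rv v p.2 ^ 2) *
        Real.exp (-π * ∑ v : Pl k, (t * (Real.exp (-c v) * y v)) * rv v p.1 ^ 2) := by
  unfold ex2
  rw [← Real.exp_add]
  congr 1
  rw [← mul_add, ← Finset.sum_add_distrib, Finset.mul_sum, Finset.mul_sum]
  refine Finset.sum_congr rfl (fun v _ => ?_)
  ring

omit [NumberField k] [IsTotallyReal k] in
theorem co1 (y c : Pl k → ℝ) (hy : ∀ v, 0 < y v) (v : Pl k) :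
    Real.exp (c v + Real.log (y v)) = Real.exp (c v) * y v := by
  rw [Real.exp_add, Real.exp_log (hy v)]

omit [NumberField k] [IsTotallyReal k] in
theorem co2 (y c : Pl k → ℝ) (hy : ∀ v, 0 < y v) (v : Pl k) :
    Real.exp (-(c v - Real.log (y v))) = Real.exp (-c v) * y v := by
  rw [neg_sub, sub_eq_add_neg, Real.exp_add, Real.exp_log (hy v), mul_comm]

omit [NumberField k] [IsTotallyReal k] in
theorem co3 (y c : Pl k → ℝ) (hy : ∀ v, 0 < y v) (v : Pl k) :
    Real.exp (c v - Real.log (y v)) = Real.exp (c v) / y v := by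
  rw [Real.exp_sub, Real.exp_log (hy v)]

omit [NumberField k] [IsTotallyReal k] in
theorem co4 (y c : Pl k → ℝ) (hy : ∀ v, 0 < y v) (v : Pl k) :
    Real.exp (c v + Real.log (y v) - Real.log 2) = 1 / 2 * (Real.exp (c v) * y v) := by
  rw [Real.exp_sub, co1 y c hy, Real.exp_log (by norm_num : (0 : ℝ) < 2)]
  ring

omit [NumberField k] [IsTotallyReal k] in
theorem co5 (y c : Pl k → ℝ) (hy : ∀ v, 0 < y v) (v : Pl k) :
    Real.exp (-(c v - Real.log (y v) + Real.log 2)) = 1 / 2 * (Real.exp (-c v) * y v) := by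
  rw [neg_add, Real.exp_add, co2 y c hy, Real.exp_neg (Real.log 2),
    Real.exp_log (by norm_num : (0 : ℝ) < 2)]
  ring

open Classical in
theorem main (hPSF : T_PSF) (I J : Pool.Agent.H25.HK.FI k)
    (x y c : Pl k → ℝ) (hI : I ≠ 0) (hJ : J ≠ 0) (hy : ∀ v, 0 < y v) :
    Summable (fun u : k × k => if u.1 ∈ I ∧ u.2 ∈ J then
      Real.exp (-π * ∑ v, Real.exp (c v) / y v *
        ((rv v u.1 + rv v u.2 * x v) ^ 2 + (rv v u.2 * y v) ^ 2)) else 0) ∧
    Summable (fun p : k × k => if (p.1 ∈ dF I ∧ p.1 ≠ 0) ∧ p.2 ∈ J ∧ p.2 ≠ 0 then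
      Real.exp (-(π / 2) * ex2 y c p) else 0) ∧
    T2 I J x y c = Z0 I J y c + eF I y c *
      ∑' p : k × k, if (p.1 ∈ dF I ∧ p.1 ≠ 0) ∧ p.2 ∈ J ∧ p.2 ≠ 0 then
        Real.exp (-π * ex2 y c p) * Real.cos (2 * π * ∑ v, rv v p.1 * (rv v p.2 * x v)) else 0 := by
  set G : k → ℝ := fun b => if b ∈ J then
    Real.exp (-π * ∑ v : Pl k, Real.exp (c v + Real.log (y v)) * rv v b ^ 2) else 0 with hGd
  set H : k → ℝ := fun m => if m ∈ dF I then
    Real.exp (-π * ∑ v : Pl k, Real.exp (-(c v - Real.log (y v))) * rv v m ^ 2) else 0 with hHd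
  set cs : k → k → ℝ := fun m b => Real.cos (2 * π * ∑ v : Pl k, rv v m * (rv v b * x v)) with hcd
  set R : k → k → ℝ := fun b r => if r ∈ I then
    Real.exp (-π * ∑ v : Pl k, Real.exp (c v - Real.log (y v)) * (rv v r + rv v b * x v) ^ 2)
      else 0 with hRd
  have hG : Summable G := by
    have := (hPSF k J (fun v => c v + Real.log (y v)) (fun _ => 0) hJ).1
    simpa only [add_zero] using this
  have hH : Summable H := (hPSF k I (fun v => c v - Real.log (y v)) (fun _ => 0) hI).2.1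
  have hG0 : ∀ b, 0 ≤ G b := fun b => by
    rw [hGd]; dsimp only; split_ifs
    · exact (Real.exp_pos _).le
    · exact le_refl _
  have hH0 : ∀ m, 0 ≤ H m := fun m => by
    rw [hHd]; dsimp only; split_ifs
    · exact (Real.exp_pos _).le
    · exact le_refl _
  have hR0 : ∀ b r, 0 ≤ R b r := fun b r => by
    rw [hRd]; dsimp only; split_ifs
    · exact (Real.exp_pos _).le
    · exact le_refl _
  have hcs : ∀ m b, |cs m b| ≤ 1 := fun m b => Real.abs_cos_le_one _
  have hG1 : G 0 = 1 := by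
    rw [hGd]; dsimp only
    rw [if_pos J.zero_mem]
    simp
  have hH1 : H 0 = 1 := by
    rw [hHd]; dsimp only
    rw [if_pos (dF I).zero_mem]
    simp
  have hc1 : ∀ b, cs 0 b = 1 := fun b => by
    rw [hcd]; dsimp only
    simp
  have hRs : ∀ b, Summable (R b) := fun b =>
    (hPSF k I (fun v => c v - Real.log (y v)) (fun v => rv v b * x v) hI).1
  have hRe : ∀ b, ∑' r, R b r = eF I y c * ∑' m, H m * cs m b := fun b => by
    have h := (hPSF k I (fun v => c v - Real.log (y v)) (fun v => rv v b * x v) hI).2.2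
    rw [hRd]; dsimp only
    rw [h]
    unfold eF
    congr 1
    refine tsum_congr (fun m => ?_)
    rw [hHd, hcd]; dsimp only
    split_ifs
    · rfl
    · rw [zero_mul]
  have hF : ∀ r b : k, (if r ∈ I ∧ b ∈ J then
      Real.exp (-π * ∑ v, Real.exp (c v) / y v *
        ((rv v r + rv v b * x v) ^ 2 + (rv v b * y v) ^ 2)) else 0) = G b * R b r := by
    intro r b
    rw [hGd, hRd]; dsimp only
    by_cases hr : r ∈ I
    · by_cases hb : b ∈ J
      · rw [if_pos ⟨hr, hb⟩, if_pos hr, if_pos hb, ← Real.exp_add]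
        congr 1
        rw [← mul_add, ← Finset.sum_add_distrib]
        congr 1
        refine Finset.sum_congr rfl (fun v _ => ?_)
        rw [co1 y c hy, co3 y c hy]
        have := (hy v).ne'
        field_simp
        ring
      · rw [if_neg (fun h => hb h.2), if_neg hb, zero_mul]
    · rw [if_neg (fun h => hr h.1), if_neg hr, mul_zero]
  have hS1 : Summable (fun q : k × k => G q.1 * R q.1 q.2) := by
    rw [summable_prod_of_nonneg (fun q => mul_nonneg (hG0 _) (hR0 _ _))]
    refine ⟨fun b => (hRs b).mul_left (G b), ?_⟩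
    refine Summable.of_norm_bounded (hG.mul_right (|eF I y c| * ∑' m, H m)) (fun b => ?_)
    dsimp only
    rw [tsum_mul_left, norm_mul, Real.norm_of_nonneg (hG0 b), hRe, norm_mul, Real.norm_eq_abs]
    refine mul_le_mul_of_nonneg_left (mul_le_mul_of_nonneg_left ?_ (abs_nonneg _)) (hG0 b)
    refine tsum_of_norm_bounded hH.hasSum (fun m => ?_)
    rw [norm_mul, Real.norm_of_nonneg (hH0 m), Real.norm_eq_abs]
    exact mul_le_of_le_one_right (hH0 m) (hcs m b)
  refine ⟨?_, ?_, ?_⟩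
  · have h1 : (fun u : k × k => if u.1 ∈ I ∧ u.2 ∈ J then
      Real.exp (-π * ∑ v, Real.exp (c v) / y v *
        ((rv v u.1 + rv v u.2 * x v) ^ 2 + (rv v u.2 * y v) ^ 2)) else 0) =
        (fun q : k × k => G q.1 * R q.1 q.2) ∘ (Equiv.prodComm k k) := by
      funext u
      exact hF u.1 u.2
    rw [h1]
    exact (Equiv.prodComm k k).summable_iff.2 hS1
  · have hG' := (hPSF k J (fun v => c v + Real.log (y v) - Real.log 2) (fun _ => 0) hJ).1
    have hH' := (hPSF k I (fun v => c v - Real.log (y v) + Real.log 2) (fun _ => 0) hI).2.1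
    refine Summable.of_nonneg_of_le (fun p => ?_) (fun p => ?_) (hH'.mul_of_nonneg hG'
      (fun m => ?_) (fun b => ?_))
    · split_ifs
      · exact (Real.exp_pos _).le
      · exact le_refl _
    · split_ifs with h1 h2 h3 h3 h2
      · have e1 : -(π / 2) * ex2 y c p = -(π * (1 / 2)) * ex2 y c p := by ring
        rw [e1, ex2_eq, mul_comm]
        simp only [co4 y c hy, co5 y c hy, add_zero]
        exact le_refl _
      · exact absurd h1.2.1 h3
      · exact absurd h1.1.1 h2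
      · exact absurd h1.1.1 h2
      all_goals positivity
    · dsimp only; split_ifs
      · exact (Real.exp_pos _).le
      · exact le_refl _
    · dsimp only; split_ifs
      · exact (Real.exp_pos _).le
      · exact le_refl _
  · have a1 : T2 I J x y c = ∑' b, G b * (eF I y c * ∑' m, H m * cs m b) := by
      unfold T2
      have h1 : (∑' u : k × k, if u.1 ∈ I ∧ u.2 ∈ J then
        Real.exp (-π * ∑ v, Real.exp (c v) / y v *
        ((rv v u.1 + rv v u.2 * x v) ^ 2 + (rv v u.2 * y v) ^ 2)) else 0) =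
          ∑' q : k × k, G q.1 * R q.1 q.2 := by
        rw [← (Equiv.prodComm k k).tsum_eq (fun q : k × k => G q.1 * R q.1 q.2)]
        exact tsum_congr (fun u => hF u.1 u.2)
      rw [h1, hS1.tsum_prod]
      refine tsum_congr (fun b => ?_)
      dsimp only
      rw [tsum_mul_left, hRe]
    have a2 : T2 I J x y c = eF I y c * ∑' b, G b * ∑' m, H m * cs m b := by
      rw [a1, ← tsum_mul_left]
      exact tsum_congr (fun b => by ring)
    rw [a2, absplit G H cs 0 0 hG hH hG0 hH0 hcs hG1 hH1 hc1, mul_add, mul_add, ← hRe 0]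
    have b1 : ∑' r, R 0 r = tF I (fun v => c v - Real.log (y v)) := by
      rw [tF_eq, hRd]
      refine tsum_congr (fun r => ?_)
      simp only [map_zero, zero_mul, add_zero]
    have b2 : ∑' b, G b = tF J (fun v => c v + Real.log (y v)) := by
      rw [tF_eq]
    rw [b1, b2]
    unfold Z0
    congr 2
    refine tsum_congr (fun p => ?_)
    rw [hGd, hHd, hcd]; dsimp only
    by_cases h1 : p.1 ≠ 0 ∧ p.2 ≠ 0
    · rw [if_pos h1]
      by_cases h2 : p.1 ∈ dF I
      · by_cases h3 : p.2 ∈ J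
        · rw [if_pos h3, if_pos h2, if_pos ⟨⟨h2, h1.1⟩, h3, h1.2⟩, ← mul_assoc]
          congr 1
          have e1 : -π * ex2 y c p = -(π * 1) * ex2 y c p := by ring
          rw [e1, ex2_eq]
          simp only [co1 y c hy, co2 y c hy, one_mul]
        · rw [if_neg h3, zero_mul,
            if_neg (fun h : (p.1 ∈ dF I ∧ p.1 ≠ 0) ∧ p.2 ∈ J ∧ p.2 ≠ 0 => h3 h.2.1)]
      · rw [if_neg h2, zero_mul, mul_zero,
          if_neg (fun h : (p.1 ∈ dF I ∧ p.1 ≠ 0) ∧ p.2 ∈ J ∧ p.2 ≠ 0 => h2 h.1.1)]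
    · rw [if_neg h1,
        if_neg (fun h : (p.1 ∈ dF I ∧ p.1 ≠ 0) ∧ p.2 ∈ J ∧ p.2 ≠ 0 => h1 ⟨h.1.2, h.2.2⟩)]

end

theorem pf_SPL (hPSF : T_PSF) : T_SPL := by
  intro k _ _ _ I J x y c hI hJ hy
  exact main hPSF I J x y c hI hJ hy

end Pool.Agent.H96.NVE_SPL
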